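import Pool.Agent.H31.GUF.Targets

/-!
The module `BF` of part F of the project GU: a bilinear form is controlled by a uniformity norm.
-/

set_option autoImplicit false

open Finset Filter Topology

namespace Pool.Agent.H79.GUF

open Pool.Agent.H31.DP
open Pool.Agent.H31.GUF

theorem bf_sum {q : ℕ} [NeZero q] (N : ℕ) (hN : N < q) (f : ZMod q → ℂ)
    (hf : ∀ y : ZMod q, ¬ (1 ≤ y.val ∧ y.val ≤ N) → f y = 0) :
    ∑ y : ZMod q, f y = ∑ x ∈ Finset.Icc (1 : ℤ) N, f (x : ZMod q) := by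
  classical
  rw [← Finset.sum_image (f := f) (g := fun x : ℤ => (x : ZMod q)) (s := Finset.Icc (1 : ℤ) N)]
  · symm
    apply Finset.sum_subset (Finset.subset_univ _)
    intro y _ hy
    apply hf
    rintro ⟨h1, h2⟩
    apply hy
    rw [Finset.mem_image]
    refine ⟨(y.val : ℤ), ?_, ?_⟩
    · rw [Finset.mem_Icc]
      constructor
      · exact_mod_cast h1
      · exact_mod_cast h2
    · rw [Int.cast_natCast, ZMod.natCast_val, ZMod.cast_id]
  · intro a ha b hb hab
    simp only at hab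
    rw [Finset.mem_coe, Finset.mem_Icc] at ha hb
    rw [ZMod.intCast_eq_intCast_iff_dvd_sub] at hab
    have h1 := Int.eq_zero_of_abs_lt_dvd hab (by rw [abs_lt]; constructor <;> omega)
    omega

theorem bf_unit {q : ℕ} [Fact q.Prime] {k : ℤ} (hk : k ≠ 0) (hkq : |k| < q) :
    (k : ZMod q) ≠ 0 := by
  intro h
  rw [ZMod.intCast_zmod_eq_zero_iff_dvd] at h
  exact hk (Int.eq_zero_of_abs_lt_dvd h hkq)

theorem bf_val {q : ℕ} [NeZero q] {z : ℤ} (hz : 2 * |z| < q) : ((z : ZMod q)).valMinAbs = z := by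
  rw [ZMod.valMinAbs_spec]
  refine ⟨rfl, ?_⟩
  have h1 := neg_abs_le z
  have h2 := le_abs_self z
  constructor <;> omega

theorem pf_BF (hGV : StatementGV) : F_BF := by
  classical
  intro J C κ hκ hC
  set c₀ : ℕ := 2 * (C + ∑ j, (κ j).natAbs) + 3 with hc₀
  set E : ℕ := 2 ^ (J + 1) with hE
  have hEJ : J + 2 ≤ E := by
    have := Nat.lt_two_pow_self (n := J + 1)
    omega
  refine ⟨(2 * (c₀ : ℝ)) ^ E * (3 * (C : ℝ)) ^ (E - (J + 2)) * (C : ℝ) ^ (J + 2), ?_, ?_⟩
  · have h1 : (0 : ℝ) < C := by exact_mod_cast hC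
    have h2 : (0 : ℝ) < c₀ := by
      have : 0 < c₀ := by omega
      exact_mod_cast this
    positivity
  intro N hN g c F hc hF
  obtain ⟨q, hqp, hq1, hq2⟩ := Nat.exists_prime_lt_and_le_two_mul (c₀ * N)
    (Nat.mul_ne_zero (by omega) (by omega))
  have : Fact q.Prime := ⟨hqp⟩
  have : NeZero q := ⟨hqp.ne_zero⟩
  have hκa : ∀ j, |κ j| ≤ ((∑ j, (κ j).natAbs : ℕ) : ℤ) := by
    intro j
    rw [Int.abs_eq_natAbs]
    exact_mod_cast Finset.single_le_sum (f := fun j => (κ j).natAbs)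
      (fun i _ => Nat.zero_le _) (Finset.mem_univ j)
  have hbig : ∀ (m x : ℤ) (j : Fin J), m ∈ Finset.Icc (1 : ℤ) ((C * N : ℕ) : ℤ) →
      x ∈ Finset.Icc (1 : ℤ) N → 2 * |m + κ j * x| < q := by
    intro m x j hm hx
    rw [Finset.mem_Icc] at hm hx
    have h1 : |m + κ j * x| ≤ |m| + |κ j| * |x| := by
      rw [← abs_mul]
      exact abs_add_le _ _
    have h2 : |m| ≤ C * N := by
      rw [abs_of_nonneg (by omega)]
      have := hm.2
      push_cast at this
      exact this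
    have h3 : |x| ≤ N := by
      rw [abs_of_nonneg (by omega)]
      exact hx.2
    have h4 : |κ j| * |x| ≤ ((∑ j, (κ j).natAbs : ℕ) : ℤ) * N :=
      mul_le_mul (hκa j) h3 (abs_nonneg _) (by positivity)
    have h5 : ((c₀ * N : ℕ) : ℤ) < q := by exact_mod_cast hq1
    rw [hc₀] at h5
    push_cast at h4 h5
    nlinarith
  have hunit : ∀ j, ((κ j : ℤ) : ZMod q) ≠ 0 := by
    intro j
    apply bf_unit (hκ j)
    have h1 := hκa j
    have h5 : ((c₀ * N : ℕ) : ℤ) < q := by exact_mod_cast hq1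
    have h6 : (1 : ℤ) ≤ N := by exact_mod_cast hN
    rw [hc₀] at h5
    push_cast at h1 h5
    have h7 : (0 : ℤ) ≤ ∑ j, |κ j| := Finset.sum_nonneg (fun _ _ => abs_nonneg _)
    nlinarith
  have hNq : N < q := by
    have : 3 * N ≤ c₀ * N := Nat.mul_le_mul_right _ (by omega)
    omega
  -- the functions
  set G : Fin (J + 1) → ZMod q → ℂ := Fin.cons
    (fun y : ZMod q => if 1 ≤ y.val ∧ y.val ≤ N then c (y.val : ℤ) else 0)
    (fun j y => F j (((κ j : ℤ) : ZMod q) * y).valMinAbs) with hG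
  set h : Fin (J + 1) → ZMod q := Fin.cons 0 (fun j => (((κ j : ℤ) : ZMod q))⁻¹) with hh
  have key := hGV (ZMod q) J q (C * N) Finset.univ G h (Finset.Icc (1 : ℤ) ((C * N : ℕ) : ℤ)) g
    (by rw [Finset.card_univ, ZMod.card]) ?_ (fun i z hz => absurd (Finset.mem_univ z) hz) ?_
  rotate_left
  · intro i z
    refine Fin.cases ?_ (fun j => ?_) i
    · simp only [hG, Fin.cons_zero]
      split_ifs
      · exact hc _
      · simp
    · simp only [hG, Fin.cons_succ]
      exact hF _ _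
  · intro a ha b hb
    rw [Finset.mem_Icc] at ha hb
    rw [abs_le]
    constructor <;> omega
  have hsum : ∑ p ∈ Finset.Icc (1 : ℤ) ((C * N : ℕ) : ℤ), g p * ∑ y : ZMod q,
      ∏ i, G i (y + p • h i) =
      ∑ m ∈ Finset.Icc (1 : ℤ) ((C * N : ℕ) : ℤ), g m *
        ∑ x ∈ Finset.Icc (1 : ℤ) N, c x * ∏ j, F j (m + κ j * x) := by
    apply Finset.sum_congr rfl
    intro m hm
    congr 1
    rw [bf_sum N hNq]
    · apply Finset.sum_congr rfl
      intro x hx
      rw [Fin.prod_univ_succ]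
      obtain ⟨hx1, hx2⟩ := Finset.mem_Icc.1 hx
      obtain ⟨n, rfl⟩ := Int.eq_ofNat_of_zero_le (by omega : 0 ≤ x)
      have hn : ((n : ℕ) : ZMod q).val = n := ZMod.val_cast_of_lt (by omega)
      congr 1
      · simp only [hG, hh, Fin.cons_zero, smul_zero, add_zero, Int.cast_natCast, hn]
        rw [if_pos (by constructor <;> omega)]
      · apply Finset.prod_congr rfl
        intro j _
        simp only [hG, hh, Fin.cons_succ]
        congr 1
        rw [zsmul_eq_mul, mul_add, mul_comm ((m : ℤ) : ZMod q), ← mul_assoc,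
          mul_inv_cancel₀ (hunit j), one_mul]
        have h1 : ((κ j : ℤ) : ZMod q) * ((n : ℤ) : ZMod q) + ((m : ℤ) : ZMod q) =
          ((m + κ j * (n : ℤ) : ℤ) : ZMod q) := by
          push_cast
          ring
        rw [h1, bf_val (hbig m n j hm hx)]
    · intro y hy
      rw [Fin.prod_univ_succ]
      simp only [hG, hh, Fin.cons_zero, smul_zero, add_zero]
      rw [if_neg hy, zero_mul]
  rw [hsum] at key
  rw [← hE] at key
  refine key.trans ?_
  have hNr : (0 : ℝ) < N := by exact_mod_cast hN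
  have hCr : (0 : ℝ) < C := by exact_mod_cast hC
  have hqr : (0 : ℝ) < q := by exact_mod_cast hqp.pos
  have hq2r : (q : ℝ) ≤ 2 * c₀ * N := by
    have : (q : ℝ) ≤ ((2 * (c₀ * N) : ℕ) : ℝ) := by exact_mod_cast hq2
    push_cast at this
    linarith
  set V : ℝ := (Uc (C * N) (J + 1) (Finset.Icc (1 : ℤ) ((C * N : ℕ) : ℤ)) g).re with hV
  have hV0 : 0 ≤ V := by
    by_contra hneg
    push Not at hneg
    have h1 : (q : ℝ) ^ E * (2 * ((C * N : ℕ) : ℝ) + 1) ^ (E - (J + 2)) * V < 0 :=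
      mul_neg_of_pos_of_neg (by positivity) hneg
    have h2 := key.trans_lt h1
    exact absurd h2 (not_lt.2 (by positivity))
  have hUU : UU (J + 1) (C * N) g = V / ((C : ℝ) * N) ^ (J + 2) := by
    simp only [UU, hV]
    push_cast
    rfl
  have h1 : (2 * ((C * N : ℕ) : ℝ) + 1) ≤ 3 * C * N := by
    have : (1 : ℝ) ≤ ((C * N : ℕ) : ℝ) := by exact_mod_cast Nat.mul_pos hC hN
    push_cast at this ⊢
    linarith
  calc (q : ℝ) ^ E * (2 * ((C * N : ℕ) : ℝ) + 1) ^ (E - (J + 2)) * V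
      ≤ (2 * c₀ * N) ^ E * (3 * C * N) ^ (E - (J + 2)) * V := by
        apply mul_le_mul_of_nonneg_right _ hV0
        apply mul_le_mul _ _ (by positivity) (by positivity)
        · exact pow_le_pow_left₀ hqr.le hq2r _
        · exact pow_le_pow_left₀ (by positivity) h1 _
    _ = (2 * (c₀ : ℝ)) ^ E * (3 * (C : ℝ)) ^ (E - (J + 2)) * (C : ℝ) ^ (J + 2) *
        (N : ℝ) ^ (2 * E) * UU (J + 1) (C * N) g := by
        rw [hUU]
        have h2 : (N : ℝ) ^ (2 * E) = (N : ℝ) ^ E * (N : ℝ) ^ (E - (J + 2)) * (N : ℝ) ^ (J + 2) := by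
          rw [← pow_add, ← pow_add]
          congr 1
          omega
        rw [h2, mul_pow, mul_pow (3 * (C : ℝ)), mul_pow (C : ℝ)]
        field_simp

end Pool.Agent.H79.GUF
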