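import Pool.Agent.H31.GUF.Targets

/-!
The module `LI` of part F of the project GU: linear configurations are controlled by the
uniformity norms of one function.
-/

set_option autoImplicit false

open Finset Filter Topology

namespace Pool.Agent.H79.GUF

open Pool.Agent.H24.T2 (box box_card mem_box)
open Pool.Agent.H31.DP
open Pool.Agent.H31.GUF

private theorem norm_ee' (x : ℝ) : ‖ee x‖ = 1 := by
  unfold ee
  rw [Complex.norm_exp]
  simp

private theorem ee_add' (x y : ℝ) : ee (x + y) = ee x * ee y := by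
  unfold ee
  rw [← Complex.exp_add]
  congr 1
  push_cast
  ring

theorem dot_add' {R : ℕ} (b s t : Fin R → ℤ) (x : ℤ) :
    dot b (fun i => s i + x * t i) = dot b s + x * dot b t := by
  unfold dot
  rw [Finset.mul_sum, ← Finset.sum_add_distrib]
  apply Finset.sum_congr rfl
  intro i _
  ring

theorem dot_sub' {R : ℕ} (a b t : Fin R → ℤ) : dot (a - b) t = dot a t - dot b t := by
  unfold dot
  rw [← Finset.sum_sub_distrib]
  apply Finset.sum_congr rfl
  intro i _
  simp [sub_mul]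

theorem dot_zero' {R : ℕ} (t : Fin R → ℤ) : dot (0 : Fin R → ℤ) t = 0 := by
  simp [dot]

/-- A vector not orthogonal to any of finitely many non zero vectors. -/
theorem li_vec {R : ℕ} {ι : Type} (s : Finset ι) (w : ι → Fin R → ℤ) (hw : ∀ j ∈ s, w j ≠ 0) :
    ∃ v : Fin R → ℤ, ∀ j ∈ s, dot (w j) v ≠ 0 := by
  classical
  induction s using Finset.induction_on with
  | empty => exact ⟨0, fun j hj => absurd hj (Finset.notMem_empty j)⟩
  | insert a s ha ih =>
    obtain ⟨v, hv⟩ := ih (fun j hj => hw j (Finset.mem_insert_of_mem hj))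
    by_cases h0 : dot (w a) v = 0
    · have h1 := hw a (Finset.mem_insert_self a s)
      obtain ⟨i, hi⟩ : ∃ i, w a i ≠ 0 := by
        by_contra hcon
        push Not at hcon
        exact h1 (funext hcon)
      set e : Fin R → ℤ := Pi.single i 1 with he
      have hae : dot (w a) e = w a i := by
        unfold dot
        rw [Finset.sum_eq_single i]
        · simp [he]
        · intro j _ hj
          simp [he, Pi.single_eq_of_ne hj]
        · intro hh
          exact absurd (Finset.mem_univ i) hh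
      set k : ℤ := 1 + ∑ j ∈ s, |dot (w j) e| with hk
      refine ⟨fun i => e i + k * v i, ?_⟩
      intro j hj
      rw [dot_add']
      rcases Finset.mem_insert.1 hj with rfl | hj'
      · rw [h0, mul_zero, add_zero, hae]
        exact hi
      · have h2 := hv j hj'
        have h3 : |dot (w j) e| ≤ ∑ j ∈ s, |dot (w j) e| :=
          Finset.single_le_sum (f := fun j => |dot (w j) e|) (fun i _ => abs_nonneg _) hj'
        intro h4
        have h5 : |dot (w j) e| = k * |dot (w j) v| := by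
          have h6 : dot (w j) e = -(k * dot (w j) v) := by linarith
          rw [h6, abs_neg, abs_mul, abs_of_pos]
          have := abs_nonneg (dot (w j) e)
          omega
        have h7 : 1 ≤ |dot (w j) v| := Int.one_le_abs h2
        have h8 : k ≤ k * |dot (w j) v| := by
          have := abs_nonneg (dot (w j) e)
          nlinarith
        omega
    · refine ⟨v, ?_⟩
      intro j hj
      rcases Finset.mem_insert.1 hj with rfl | hj'
      · exact h0
      · exact hv j hj'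

theorem li_shift {R : ℕ} (N M : ℕ) (v : Fin R → ℤ) (hv : ∀ i, N + |v i| ≤ (M : ℤ))
    (f : (Fin R → ℤ) → ℂ) (hf : ∀ t, t ∉ box R N → f t = 0) :
    ∑ c ∈ box R M, f (fun i => c i + v i) = ∑ s ∈ box R N, f s := by
  classical
  have hinj : Function.Injective (fun (c : Fin R → ℤ) => (fun i => c i + v i : Fin R → ℤ)) := by
    intro a b hab
    funext i
    have h1 := congrFun hab i
    simp only at h1
    omega
  rw [← Finset.sum_image (f := f) (g := fun (c : Fin R → ℤ) => (fun i => c i + v i : Fin R → ℤ))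
    (s := box R M) (fun a _ b _ hab => hinj hab)]
  symm
  apply Finset.sum_subset
  · intro s hs
    rw [mem_box] at hs
    rw [Finset.mem_image]
    refine ⟨fun i => s i - v i, ?_, ?_⟩
    · rw [mem_box]
      intro i
      have h1 := abs_sub (s i) (v i)
      have h2 := hs i
      have h3 := hv i
      omega
    · funext i
      simp
  · intro s _ hs
    exact hf s hs

theorem li_inter {A B : Finset ℤ} {H : ℤ → ℂ} (h1 : ∀ m ∈ A, m ∉ B → H m = 0)
    (h2 : ∀ m ∈ B, m ∉ A → H m = 0) : ∑ m ∈ A, H m = ∑ m ∈ B, H m := by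
  classical
  rw [← Finset.sum_subset (Finset.inter_subset_left (s₁ := A) (s₂ := B)),
    ← Finset.sum_subset (Finset.inter_subset_right (s₁ := A) (s₂ := B))]
  · intro m hm hm'
    exact h2 m hm (fun h => hm' (Finset.mem_inter.2 ⟨h, hm⟩))
  · intro m hm hm'
    exact h1 m hm (fun h => hm' (Finset.mem_inter.2 ⟨hm, h⟩))

/-- The sum along the configuration. -/
noncomputable def SS {R J : ℕ} (N : ℕ) (b₀ : Fin R → ℤ) (b : Fin J → Fin R → ℤ) (g : ℤ → ℂ)
    (F : Fin J → ℤ → ℂ) (θ : ℝ) (t : Fin R → ℤ) : ℂ :=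
  ∑ n ∈ Finset.Icc (1 : ℤ) N, g (n + dot b₀ t) * ee (n * θ) * ∏ j, F j (n + dot (b j) t)

theorem dot_le {R : ℕ} (N : ℕ) (b t : Fin R → ℤ) (ht : t ∈ box R N) :
    |dot b t| ≤ (∑ i, |b i|) * N := by
  rw [mem_box] at ht
  unfold dot
  refine (Finset.abs_sum_le_sum_abs _ _).trans ?_
  rw [Finset.sum_mul]
  apply Finset.sum_le_sum
  intro i _
  rw [abs_mul]
  exact mul_le_mul_of_nonneg_left (ht i) (abs_nonneg _)

theorem li_one (hBF : F_BF) {R J : ℕ} (C : ℕ) (b₀ : Fin R → ℤ) (b : Fin J → Fin R → ℤ)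
    (v : Fin R → ℤ) (hv : ∀ j, dot (b j) v - dot b₀ v ≠ 0) (hv0 : dot b₀ v ≠ 0)
    (hC : 1 + ∑ i, |b₀ i| ≤ (C : ℤ)) : ∃ C1 : ℝ, 0 < C1 ∧ ∀ N : ℕ, 0 < N →
      ∀ (g : ℤ → ℂ), (∀ m, m < 1 → g m = 0) → ∀ (F : Fin J → ℤ → ℂ) (θ : ℝ),
        (∀ j m, ‖F j m‖ ≤ 1) → ∀ c : (Fin R → ℤ) → ℂ, (∀ t, ‖c t‖ ≤ 1) →
          (∀ t, t ∉ box R N → c t = 0) → ∀ t₁ : Fin R → ℤ,
            ‖∑ x ∈ Finset.Icc (1 : ℤ) N, c (fun i => t₁ i + x * v i) *
              SS N b₀ b g F θ (fun i => t₁ i + x * v i)‖ ^ (2 ^ (J + 2)) ≤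
              C1 * (N : ℝ) ^ (2 * 2 ^ (J + 2)) * UU (J + 2) (C * N) g := by
  classical
  have hC0 : 0 < C := by
    have h1 : 0 ≤ ∑ i, |b₀ i| := Finset.sum_nonneg (fun _ _ => abs_nonneg _)
    omega
  set κ : Fin (J + 1) → ℤ := Fin.cons (-dot b₀ v) (fun j => dot (b j) v - dot b₀ v) with hκ
  obtain ⟨C1, hC1, hmain⟩ := hBF (J + 1) C κ (by
    intro j
    refine Fin.cases ?_ (fun j => ?_) j
    · simp only [hκ, Fin.cons_zero]
      exact neg_ne_zero.2 hv0
    · simp only [hκ, Fin.cons_succ]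
      exact hv j) hC0
  refine ⟨C1, hC1, ?_⟩
  intro N hN g hg F θ hF c hc hc0 t₁
  set F' : Fin (J + 1) → ℤ → ℂ := Fin.cons
    (fun z => if 1 ≤ z - dot b₀ t₁ ∧ z - dot b₀ t₁ ≤ N then ee (((z - dot b₀ t₁ : ℤ) : ℝ) * θ)
      else 0)
    (fun j z => F j (z + (dot (b j) t₁ - dot b₀ t₁))) with hF'
  have h1 := hmain N hN g (fun x => c (fun i => t₁ i + x * v i)) F' (fun x => hc _) (by
    intro j m
    refine Fin.cases ?_ (fun j => ?_) j
    · simp only [hF', Fin.cons_zero]
      split_ifs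
      · rw [norm_ee']
      · simp
    · simp only [hF', Fin.cons_succ]
      exact hF _ _)
  have h2 : ∑ x ∈ Finset.Icc (1 : ℤ) N, c (fun i => t₁ i + x * v i) *
      SS N b₀ b g F θ (fun i => t₁ i + x * v i) =
      ∑ m ∈ Finset.Icc (1 : ℤ) ((C * N : ℕ) : ℤ), g m *
        ∑ x ∈ Finset.Icc (1 : ℤ) N, c (fun i => t₁ i + x * v i) * ∏ j, F' j (m + κ j * x) := by
    simp only [Finset.mul_sum]
    rw [Finset.sum_comm]
    apply Finset.sum_congr rfl
    intro x _
    by_cases hx : (fun i => t₁ i + x * v i) ∈ box R N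
    · set t : Fin R → ℤ := fun i => t₁ i + x * v i with ht
      have hD : dot b₀ t = dot b₀ t₁ + x * dot b₀ v := dot_add' _ _ _ _
      have hDj : ∀ j, dot (b j) t = dot (b j) t₁ + x * dot (b j) v := fun j => dot_add' _ _ _ _
      set H : ℤ → ℂ := fun m => g m * ((if 1 ≤ m - dot b₀ t ∧ m - dot b₀ t ≤ N then
        ee (((m - dot b₀ t : ℤ) : ℝ) * θ) else 0) * ∏ j, F j (m - dot b₀ t + dot (b j) t)) with hH
      have h3 : SS N b₀ b g F θ t = ∑ m ∈ Finset.Icc (1 : ℤ) ((C * N : ℕ) : ℤ), H m := by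
        have h4 : SS N b₀ b g F θ t =
            ∑ m ∈ (Finset.Icc (1 : ℤ) N).image (fun n => n + dot b₀ t), H m := by
          rw [Finset.sum_image (fun a _ b _ hab => add_right_cancel hab)]
          unfold SS
          apply Finset.sum_congr rfl
          intro n hn
          rw [Finset.mem_Icc] at hn
          simp only [hH, add_sub_cancel_right]
          rw [if_pos hn]
          ring
        rw [h4]
        apply li_inter
        · intro m hm hm'
          rw [Finset.mem_image] at hm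
          obtain ⟨n, hn, rfl⟩ := hm
          rw [Finset.mem_Icc] at hn
          have h5 := dot_le N b₀ t hx
          have h6 := le_abs_self (dot b₀ t)
          have h7 : (n + dot b₀ t) < 1 := by
            by_contra hcon
            push Not at hcon
            apply hm'
            rw [Finset.mem_Icc]
            refine ⟨hcon, ?_⟩
            have h8 : (1 + ∑ i, |b₀ i|) * (N : ℤ) ≤ C * N :=
              mul_le_mul_of_nonneg_right hC (by positivity)
            push_cast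
            linarith [hn.2]
          simp only [hH]
          rw [hg _ h7, zero_mul]
        · intro m hm hm'
          simp only [hH]
          rw [if_neg, zero_mul, mul_zero]
          intro h8
          apply hm'
          rw [Finset.mem_image]
          exact ⟨m - dot b₀ t, Finset.mem_Icc.2 h8, by ring⟩
      rw [h3, Finset.mul_sum]
      apply Finset.sum_congr rfl
      intro m _
      rw [Fin.prod_univ_succ]
      simp only [hH, hF', hκ, Fin.cons_zero, Fin.cons_succ]
      have h9 : m + -dot b₀ v * x - dot b₀ t₁ = m - dot b₀ t := by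
        rw [hD]; ring
      have h10 : ∀ j, m + (dot (b j) v - dot b₀ v) * x + (dot (b j) t₁ - dot b₀ t₁) =
          m - dot b₀ t + dot (b j) t := by
        intro j
        rw [hD, hDj]; ring
      simp only [h9, h10]
      ring
    · rw [hc0 _ hx]
      simp
  rw [h2]
  exact h1

theorem li_two (hBF : F_BF) {R J : ℕ} (b : Fin J → Fin R → ℤ)
    (v : Fin R → ℤ) (hv : ∀ j, dot (b j) v ≠ 0) : ∃ C1 : ℝ, 0 < C1 ∧ ∀ N : ℕ, 0 < N →
      ∀ (g : ℤ → ℂ) (F : Fin J → ℤ → ℂ) (θ : ℝ),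
        (∀ j m, ‖F j m‖ ≤ 1) → ∀ c : (Fin R → ℤ) → ℂ, (∀ t, ‖c t‖ ≤ 1) →
          ∀ t₁ : Fin R → ℤ,
            ‖∑ x ∈ Finset.Icc (1 : ℤ) N, c (fun i => t₁ i + x * v i) *
              SS N 0 b g F θ (fun i => t₁ i + x * v i)‖ ^ (2 ^ (J + 2)) ≤
              C1 * (N : ℝ) ^ (2 * 2 ^ (J + 2)) * UU (J + 2) N g := by
  classical
  set κ : Fin (J + 1) → ℤ := Fin.cons 1 (fun j => dot (b j) v) with hκ
  obtain ⟨C1, hC1, hmain⟩ := hBF (J + 1) 1 κ (by
    intro j
    refine Fin.cases ?_ (fun j => ?_) j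
    · simp only [hκ, Fin.cons_zero]
      exact one_ne_zero
    · simp only [hκ, Fin.cons_succ]
      exact hv j) one_pos
  refine ⟨C1, hC1, ?_⟩
  intro N hN g F θ hF c hc t₁
  set F' : Fin (J + 1) → ℤ → ℂ := Fin.cons
    (fun z => ee ((z : ℝ) * θ)) (fun j z => F j (z + dot (b j) t₁)) with hF'
  have h1 := hmain N hN g (fun x => c (fun i => t₁ i + x * v i) * ee (-((x : ℝ) * θ))) F'
    (by
      intro x
      rw [norm_mul, norm_ee', mul_one]
      exact hc _) (by
    intro j m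
    refine Fin.cases ?_ (fun j => ?_) j
    · simp only [hF', Fin.cons_zero]
      rw [norm_ee']
    · simp only [hF', Fin.cons_succ]
      exact hF _ _)
  rw [one_mul] at h1
  have h2 : ∑ x ∈ Finset.Icc (1 : ℤ) N, c (fun i => t₁ i + x * v i) *
      SS N 0 b g F θ (fun i => t₁ i + x * v i) =
      ∑ m ∈ Finset.Icc (1 : ℤ) ((N : ℕ) : ℤ), g m *
        ∑ x ∈ Finset.Icc (1 : ℤ) N, (c (fun i => t₁ i + x * v i) * ee (-((x : ℝ) * θ))) *
          ∏ j, F' j (m + κ j * x) := by
    simp only [Finset.mul_sum]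
    rw [Finset.sum_comm]
    apply Finset.sum_congr rfl
    intro x _
    unfold SS
    rw [Finset.mul_sum]
    apply Finset.sum_congr rfl
    intro m _
    rw [Fin.prod_univ_succ]
    simp only [hF', hκ, Fin.cons_zero, Fin.cons_succ]
    have h3 : ee (((m + 1 * x : ℤ) : ℝ) * θ) = ee ((m : ℝ) * θ) * ee ((x : ℝ) * θ) := by
      rw [← ee_add']
      congr 1
      push_cast
      ring
    have h4 : ee (-((x : ℝ) * θ)) * ee ((x : ℝ) * θ) = 1 := by
      rw [← ee_add', neg_add_cancel]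
      simp [ee]
    have h5 : ∀ j, m + dot (b j) v * x + dot (b j) t₁ =
        m + dot (b j) (fun i => t₁ i + x * v i) := by
      intro j
      rw [dot_add']; ring
    simp only [h3, h5, dot_zero', add_zero]
    calc c (fun i => t₁ i + x * v i) * (g m * ee ((m : ℝ) * θ) *
        ∏ j, F j (m + dot (b j) fun i => t₁ i + x * v i))
        = g m * (c (fun i => t₁ i + x * v i) * (ee (-((x : ℝ) * θ)) * ee ((x : ℝ) * θ)) *
          (ee ((m : ℝ) * θ) * ∏ j, F j (m + dot (b j) fun i => t₁ i + x * v i))) := by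
          rw [h4]; ring
      _ = _ := by ring
  rw [h2]
  exact h1

theorem li_core (hBF : F_BF) (R J C : ℕ) (b₀ : Fin R → ℤ) (b : Fin J → Fin R → ℤ)
    (hb : ∀ j, b j ≠ b₀) (hC : 1 + ∑ i, |b₀ i| ≤ (C : ℤ)) :
    ∃ (v : Fin R → ℤ) (C1 : ℝ), 0 < C1 ∧ ∀ N : ℕ, 0 < N → ∀ (ε : ℝ) (g : ℤ → ℂ),
      (∀ m, m < 1 → g m = 0) → UU (J + 2) (C * N) g ≤ ε → UU (J + 2) N g ≤ ε →
      ∀ (F : Fin J → ℤ → ℂ) (θ : ℝ), (∀ j m, ‖F j m‖ ≤ 1) → ∀ c : (Fin R → ℤ) → ℂ,
        (∀ t, ‖c t‖ ≤ 1) → (∀ t, t ∉ box R N → c t = 0) → ∀ t₁ : Fin R → ℤ,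
            ‖∑ x ∈ Finset.Icc (1 : ℤ) N, c (fun i => t₁ i + x * v i) *
              SS N b₀ b g F θ (fun i => t₁ i + x * v i)‖ ^ (2 ^ (J + 2)) ≤
              C1 * (N : ℝ) ^ (2 * 2 ^ (J + 2)) * ε := by
  classical
  by_cases h0 : b₀ = 0
  · subst h0
    obtain ⟨v, hv⟩ := li_vec Finset.univ b (fun j _ => hb j)
    obtain ⟨C1, hC1, h1⟩ := li_two hBF b v (fun j => hv j (Finset.mem_univ j))
    refine ⟨v, C1, hC1, ?_⟩
    intro N hN ε g hg _ hU F θ hF c hc hc0 t₁
    refine (h1 N hN g F θ hF c hc t₁).trans ?_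
    exact mul_le_mul_of_nonneg_left hU (by positivity)
  · obtain ⟨v, hv⟩ := li_vec (Finset.univ : Finset (Option (Fin J)))
      (fun o => match o with | none => b₀ | some j => b j - b₀) (by
        intro o _
        match o with
        | none => exact h0
        | some j => exact sub_ne_zero.2 (hb j))
    obtain ⟨C1, hC1, h1⟩ := li_one hBF C b₀ b v (by
      intro j
      have := hv (some j) (Finset.mem_univ _)
      simp only at this
      rwa [dot_sub'] at this) (hv none (Finset.mem_univ _)) hC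
    refine ⟨v, C1, hC1, ?_⟩
    intro N hN ε g hg hU _ F θ hF c hc hc0 t₁
    refine (h1 N hN g hg F θ hF c hc hc0 t₁).trans ?_
    exact mul_le_mul_of_nonneg_left hU (by positivity)

theorem li_unim (z : ℂ) : ∃ c : ℂ, ‖c‖ ≤ 1 ∧ c * z = (‖z‖ : ℂ) := by
  by_cases hz : z = 0
  · exact ⟨0, by simp, by simp [hz]⟩
  · have h1 : (‖z‖ : ℂ) ≠ 0 := by
      rw [Complex.ofReal_ne_zero]
      exact norm_ne_zero_iff.2 hz
    refine ⟨(starRingEnd ℂ) z / ‖z‖, ?_, ?_⟩
    · rw [norm_div, RCLike.norm_conj, Complex.norm_real, norm_norm,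
        div_self (norm_ne_zero_iff.2 hz)]
    · rw [div_mul_eq_mul_div, mul_comm, Complex.mul_conj, div_eq_iff h1, Complex.normSq_eq_norm_sq]
      push_cast
      ring

theorem pf_LI (hBF : F_BF) : F_LI := by
  classical
  intro R J C b₀ b η hb hC hη
  obtain ⟨v, C1, hC1, hcore⟩ := li_core hBF R J C b₀ b hb hC
  set C3 : ℕ := 1 + ∑ i, (v i).natAbs with hC3
  set E : ℕ := 2 ^ (J + 2) with hE
  have hE0 : E ≠ 0 := by positivity
  set κ : ℝ := η / (3 * (C3 : ℝ)) ^ R with hκ
  have hC3r : (0 : ℝ) < C3 := by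
    have : 0 < C3 := by omega
    exact_mod_cast this
  have hκ0 : 0 < κ := by positivity
  refine ⟨κ ^ E / C1, by positivity, ?_⟩
  intro N hN g _ hg0 hU1 hU2 F θ hF
  have hNr : (0 : ℝ) < N := by exact_mod_cast hN
  choose c₁ hc1 hc2 using fun t : Fin R → ℤ => li_unim (SS N b₀ b g F θ t)
  set c : (Fin R → ℤ) → ℂ := fun t => if t ∈ box R N then c₁ t else 0 with hc
  have hcn : ∀ t, ‖c t‖ ≤ 1 := by
    intro t
    simp only [hc]
    split_ifs
    · exact hc1 t
    · simp
  have hc0 : ∀ t, t ∉ box R N → c t = 0 := by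
    intro t ht
    simp only [hc]
    rw [if_neg ht]
  have hsum : ∀ t ∈ box R N, (‖SS N b₀ b g F θ t‖ : ℂ) = c t * SS N b₀ b g F θ t := by
    intro t ht
    simp only [hc]
    rw [if_pos ht, hc2]
  have hinner : ∀ t₁ : Fin R → ℤ, ‖∑ x ∈ Finset.Icc (1 : ℤ) N, c (fun i => t₁ i + x * v i) *
      SS N b₀ b g F θ (fun i => t₁ i + x * v i)‖ ≤ κ * (N : ℝ) ^ 2 := by
    intro t₁
    have h1 := hcore N hN (κ ^ E / C1) g hg0 hU1 hU2 F θ hF c hcn hc0 t₁
    have h2 : C1 * (N : ℝ) ^ (2 * E) * (κ ^ E / C1) = (κ * (N : ℝ) ^ 2) ^ E := by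
      rw [mul_pow, ← pow_mul]
      field_simp
    rw [h2] at h1
    exact (pow_le_pow_iff_left₀ (norm_nonneg _) (by positivity) hE0).1 h1
  have hshift : ∀ x ∈ Finset.Icc (1 : ℤ) N, ∑ t ∈ box R N, c t * SS N b₀ b g F θ t =
      ∑ t₁ ∈ box R (C3 * N), c (fun i => t₁ i + x * v i) *
        SS N b₀ b g F θ (fun i => t₁ i + x * v i) := by
    intro x hx
    rw [Finset.mem_Icc] at hx
    symm
    apply li_shift N (C3 * N) (fun i => x * v i) _ (fun t => c t * SS N b₀ b g F θ t)
    · intro t ht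
      rw [hc0 t ht, zero_mul]
    · intro i
      have h1 : (v i).natAbs ≤ ∑ i, (v i).natAbs :=
        Finset.single_le_sum (f := fun i => (v i).natAbs) (fun i _ => Nat.zero_le _)
          (Finset.mem_univ i)
      have h2 : |v i| ≤ ((∑ i, (v i).natAbs : ℕ) : ℤ) := by
        rw [Int.abs_eq_natAbs]
        exact_mod_cast h1
      have h3 : |x| ≤ N := by
        rw [abs_of_nonneg (by omega)]
        exact hx.2
      rw [abs_mul]
      have h4 : |x| * |v i| ≤ N * ((∑ i, (v i).natAbs : ℕ) : ℤ) :=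
        mul_le_mul h3 h2 (abs_nonneg _) (by positivity)
      rw [hC3]
      push_cast at h4 ⊢
      linarith
  have hcalc : (N : ℝ) * ∑ t ∈ box R N, ‖SS N b₀ b g F θ t‖ ≤
      (((box R (C3 * N)).card : ℕ) : ℝ) * (κ * (N : ℝ) ^ 2) := by
    have h1 : (((N : ℝ) * ∑ t ∈ box R N, ‖SS N b₀ b g F θ t‖ : ℝ) : ℂ) =
        ∑ t₁ ∈ box R (C3 * N), ∑ x ∈ Finset.Icc (1 : ℤ) N, c (fun i => t₁ i + x * v i) *
          SS N b₀ b g F θ (fun i => t₁ i + x * v i) := by
      rw [Finset.sum_comm, ← Finset.sum_congr rfl hshift, Finset.sum_const, Int.card_Icc,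
        nsmul_eq_mul]
      push_cast
      rw [Finset.sum_congr rfl hsum]
      congr 1
      simp
    have h2 : (N : ℝ) * ∑ t ∈ box R N, ‖SS N b₀ b g F θ t‖ =
        ‖(((N : ℝ) * ∑ t ∈ box R N, ‖SS N b₀ b g F θ t‖ : ℝ) : ℂ)‖ := by
      rw [Complex.norm_real, Real.norm_of_nonneg]
      exact mul_nonneg hNr.le (Finset.sum_nonneg (fun _ _ => norm_nonneg _))
    rw [h2, h1]
    refine (norm_sum_le _ _).trans ?_
    refine (Finset.sum_le_sum (fun t₁ _ => hinner t₁)).trans ?_
    rw [Finset.sum_const, nsmul_eq_mul]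
  have hcard : (((box R (C3 * N)).card : ℕ) : ℝ) ≤ (3 * C3 : ℝ) ^ R * (N : ℝ) ^ R := by
    rw [box_card, ← mul_pow]
    apply pow_le_pow_left₀ (by positivity)
    have h1 : (1 : ℝ) ≤ ((C3 * N : ℕ) : ℝ) := by
      exact_mod_cast Nat.mul_pos (by omega) hN
    push_cast at h1 ⊢
    linarith
  have hfin : (N : ℝ) * ∑ t ∈ box R N, ‖SS N b₀ b g F θ t‖ ≤
      (N : ℝ) * (η * (N : ℝ) ^ (R + 1)) := by
    refine hcalc.trans ?_
    refine (mul_le_mul_of_nonneg_right hcard (by positivity)).trans (le_of_eq ?_)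
    rw [hκ, pow_succ (N : ℝ) R]
    field_simp
  exact le_of_mul_le_mul_left hfin hNr

end Pool.Agent.H79.GUF
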